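import Mathlib
import Pool.Agent.H25.BalDig

namespace Pool.Agent.Results.MP_31cf8f_co.Cex

open Finset Matrix

variable {n : ℕ}

/-- in-degree equals out-degree at every vertex; `E` is the arc set -/
def Balanced (E : Finset (Fin n × Fin n)) : Prop :=
  ∀ i, (univ.filter (fun j => (i, j) ∈ E)).card = (univ.filter (fun j => (j, i) ∈ E)).card

/-- `L = D - A`, with `D` the diagonal matrix of out-degrees -/
noncomputable def lap (E : Finset (Fin n × Fin n)) : Matrix (Fin n) (Fin n) ℝ :=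
  diagonal (fun i => ((univ.filter (fun j => (i, j) ∈ E)).card : ℝ)) -
    of (fun i j => if (i, j) ∈ E then (1 : ℝ) else 0)

/-- algebraic connectivity -/
noncomputable def alpha (E : Finset (Fin n × Fin n)) : ℝ :=
  sInf {t | ∃ x : Fin n → ℝ, ∑ i, x i = 0 ∧ ∑ i, x i ^ 2 = 1 ∧ t = x ⬝ᵥ (lap E *ᵥ x)}

/-- the complement digraph -/
def compl (E : Finset (Fin n × Fin n)) : Finset (Fin n × Fin n) :=
  univ.filter (fun e => e.1 ≠ e.2 ∧ e ∉ E)

lemma alpha_eq (E : Finset (Fin n × Fin n)) : alpha E = H25.BalDig.al E := by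
  simp only [alpha, lap, H25.BalDig.quad, H25.BalDig.al]

theorem result : ¬ ∀ (n : ℕ) (E : Finset (Fin n × Fin n)), 2 ≤ n → (∀ e ∈ E, e.1 ≠ e.2) →
    Balanced E → ∀ x y : ℝ, x = alpha E → y = alpha (compl E) → x ≤ 1 → y ≤ 1 →
      x * y * (2 - x * y) < n * (1 - x) * (1 - y) * (n - 2 - x - y) → x = 0 ∨ y = 0 := by
  intro h
  have h1 := H25.BalDig.b1
  have h2 := H25.BalDig.b2
  have h4 := H25.BalDig.fin _ _ h1.2 h2.2
  have h3 := h 10 H25.BalDig.E0 (by norm_num) H25.BalDig.E0_loop H25.BalDig.E0_bal _ _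
    (alpha_eq _).symm (alpha_eq _).symm (by linarith [h1.2]) (by unfold compl; linarith [h2.2])
    (by unfold compl; push_cast; linarith)
  unfold compl at h3
  rcases h3 with h3 | h3
  · linarith [h1.1]
  · linarith [h2.1]

end Pool.Agent.Results.MP_31cf8f_co.Cex
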